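import Pool.Agent.Y16.AF.StmA

/-!
# Project AF: the one loop coefficient as a second logarithmic derivative
-/

set_option autoImplicit false

open Matrix
open scoped Matrix.Norms.Frobenius Topology

namespace Pool.Agent.Y864.AF

open Pool.Agent.Y16.AF

noncomputable section

/-- the two frequencies of the weight -/
def c1 (α τ : ℝ) (i j : Fin 4) : ℝ := if i = j then α / 2 else qc α τ i j

def c2 (α τ : ℝ) (i j : Fin 4) : ℝ := if i = j then -(α / 2) else qc α τ i j

lemma c12 (α τ : ℝ) (i j : Fin 4) : c1 α τ i j + c2 α τ i j = 2 * qc α τ i j := by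
  unfold c1 c2
  by_cases h : i = j
  · subst h
    simp [qc]
  · rw [if_neg h, if_neg h]
    ring

lemma c12sq (α τ : ℝ) (i j : Fin 4) : c1 α τ i j ^ 2 + c2 α τ i j ^ 2 = -2 * rc α τ i j := by
  unfold c1 c2
  by_cases h : i = j
  · subst h
    simp only [if_true, rc, ne_eq, not_true_eq_false, if_false]
    ring
  · rw [if_neg h, if_neg h]
    rcases lt_or_gt_of_ne h with h1 | h1
    · have hj : j ≠ 0 := fun h0 => by
        rw [h0] at h1
        exact absurd h1 (Fin.not_lt_zero _)
      have h2 : ¬ j < i := not_lt.2 h1.le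
      by_cases hi : i = 0
      · have h3 : ((i = 0) ≠ (j = 0)) := by simp [hi, hj]
        unfold qc rc
        rw [if_pos h1, if_neg hj, if_pos hi, if_pos h3]
        ring
      · have h3 : ¬ ((i = 0) ≠ (j = 0)) := by simp [hi, hj]
        unfold qc rc
        rw [if_pos h1, if_neg hj, if_neg hi, if_neg h3]
        ring
    · have hi : i ≠ 0 := fun h0 => by
        rw [h0] at h1
        exact absurd h1 (Fin.not_lt_zero _)
      have h2 : ¬ i < j := not_lt.2 h1.le
      by_cases hj : j = 0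
      · have h3 : ((i = 0) ≠ (j = 0)) := by simp [hi, hj]
        unfold qc rc
        rw [if_neg h2, if_pos h1, if_pos hj, if_neg hi, if_pos h3]
        ring
      · have h3 : ¬ ((i = 0) ≠ (j = 0)) := by simp [hi, hj]
        unfold qc rc
        rw [if_neg h2, if_pos h1, if_neg hj, if_neg hi, if_neg h3]
        ring

/-- the exponential with frequency `c` -/
def ex (c x : ℝ) : ℂ := Complex.exp (Complex.I * c * x)

lemma cc_eq (θ : ℝ) (i : Fin 4) :
    cc θ i = Complex.exp (Complex.I * ((θ * (if i = 0 then 1 else 0) : ℝ) : ℂ)) := by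
  unfold cc
  split_ifs <;> simp

lemma conj_cc (θ : ℝ) (i : Fin 4) : (starRingEnd ℂ) (cc θ i) =
    Complex.exp (-(Complex.I * ((θ * (if i = 0 then 1 else 0) : ℝ) : ℂ))) := by
  rw [cc_eq, ← Complex.exp_conj, map_mul, Complex.conj_I, Complex.conj_ofReal, neg_mul]

lemma om_eq (α τ x : ℝ) (i j : Fin 4) :
    om (α * x) (τ * x) i j = (ex (c1 α τ i j) x + ex (c2 α τ i j) x) / 2 := by
  unfold om
  rw [conj_cc, cc_eq]
  by_cases h : i = j
  · subst h
    have h1 : ww (α * x) i i = (Real.cos (α * x / 2) : ℂ) := by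
      unfold ww
      rw [if_pos rfl]
    rw [h1, mul_assoc, ← Complex.exp_add, neg_add_cancel, Complex.exp_zero, mul_one,
      Complex.ofReal_cos, Complex.cos]
    unfold ex c1 c2
    rw [if_pos rfl, if_pos rfl]
    congr 3
    · push_cast
      ring
    · push_cast
      ring
  · have h0 : ex (c1 α τ i j) x + ex (c2 α τ i j) x = 2 * ex (qc α τ i j) x := by
      unfold c1 c2
      rw [if_neg h, if_neg h]
      ring
    rw [h0, mul_div_cancel_left₀ _ (two_ne_zero)]
    rcases lt_or_gt_of_ne h with h1 | h1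
    · have h2 : ww (α * x) i j = Complex.exp (-(Complex.I * ((α * x : ℝ) / 2))) := by
        unfold ww
        rw [if_neg h, if_pos h1]
      rw [h2, ← Complex.exp_add, ← Complex.exp_add]
      unfold ex qc
      rw [if_pos h1]
      congr 1
      push_cast
      ring
    · have h2 : ww (α * x) i j = Complex.exp (Complex.I * ((α * x : ℝ) / 2)) := by
        unfold ww
        rw [if_neg h, if_neg (not_lt.2 h1.le)]
      rw [h2, ← Complex.exp_add, ← Complex.exp_add]
      unfold ex qc
      rw [if_neg (not_lt.2 h1.le), if_pos h1]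
      congr 1
      push_cast
      ring

variable {L : ℕ} [NeZero L]

/-- the `n`-th derivative of `hF` -/
def hn (n : ℕ) (x : ℝ) (w w' : Links L) : ℂ :=
  ∑ p : Pq L, ∑ i, ∑ j, (inc p i w : ℂ) * inc p j w' *
    (((Complex.I * c1 (al L p.2.2) (ta p.2.1 p.2.2) i j) ^ n *
        ex (c1 (al L p.2.2) (ta p.2.1 p.2.2) i j) x +
      (Complex.I * c2 (al L p.2.2) (ta p.2.1 p.2.2) i j) ^ n *
        ex (c2 (al L p.2.2) (ta p.2.1 p.2.2) i j) x) / 2)

lemma hn_zero (x : ℝ) (w w' : Links L) : hn 0 x w w' = hF x w w' := by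
  unfold hn hF
  refine Finset.sum_congr rfl fun p _ => Finset.sum_congr rfl fun i _ =>
    Finset.sum_congr rfl fun j _ => ?_
  rw [om_eq, pow_zero, pow_zero, one_mul, one_mul]

lemma ex_deriv (c x : ℝ) (n : ℕ) : HasDerivAt (fun y => (Complex.I * c) ^ n * ex c y)
    ((Complex.I * c) ^ (n + 1) * ex c x) x := by
  unfold ex
  have h1 : HasDerivAt (fun y : ℝ => Complex.I * c * (y : ℂ)) (Complex.I * c * 1) x :=
    (Complex.ofRealCLM.hasDerivAt (x := x)).const_mul _
  have h2 := (h1.cexp).const_mul ((Complex.I * c) ^ n)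
  refine h2.congr_deriv ?_
  ring

lemma hn_deriv (n : ℕ) (x : ℝ) (w w' : Links L) :
    HasDerivAt (fun y => hn n y w w') (hn (n + 1) x w w') x := by
  unfold hn
  refine HasDerivAt.fun_sum fun p _ => HasDerivAt.fun_sum fun i _ =>
    HasDerivAt.fun_sum fun j _ => ?_
  exact (((ex_deriv _ x n).add (ex_deriv _ x n)).div_const 2).const_mul _

lemma ex_contDiff (c : ℝ) : ContDiff ℝ 2 (fun y => ex c y) := by
  unfold ex
  exact (contDiff_const.mul Complex.ofRealCLM.contDiff).cexp

lemma hn_contDiff (w w' : Links L) : ContDiff ℝ 2 (fun y => hF y w w') := by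
  have h0 : (fun y => hF y w w') = fun y => hn 0 y w w' := funext fun y => (hn_zero y w w').symm
  rw [h0]
  unfold hn
  refine ContDiff.sum fun p _ => ContDiff.sum fun i _ => ContDiff.sum fun j _ => ?_
  exact contDiff_const.mul (((contDiff_const.mul (ex_contDiff _)).add
    (contDiff_const.mul (ex_contDiff _))).div_const 2)

lemma hn0 (w w' : Links L) : hn 0 0 w w' = ((Hm w w' : ℝ) : ℂ) := by
  unfold hn Hm
  push_cast
  refine Finset.sum_congr rfl fun p _ => Finset.sum_congr rfl fun i _ =>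
    Finset.sum_congr rfl fun j _ => ?_
  unfold ex
  simp

lemma hn1 (w w' : Links L) : hn 1 0 w w' = Complex.I * ((Qm w w' : ℝ) : ℂ) := by
  unfold hn Qm
  push_cast
  rw [Finset.mul_sum]
  refine Finset.sum_congr rfl fun p _ => ?_
  rw [Finset.mul_sum]
  refine Finset.sum_congr rfl fun i _ => ?_
  rw [Finset.mul_sum]
  refine Finset.sum_congr rfl fun j _ => ?_
  have h1 := c12 (al L p.2.2) (ta p.2.1 p.2.2) i j
  have h2 : (c1 (al L p.2.2) (ta p.2.1 p.2.2) i j : ℂ) + c2 (al L p.2.2) (ta p.2.1 p.2.2) i j =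
      2 * qc (al L p.2.2) (ta p.2.1 p.2.2) i j := by exact_mod_cast h1
  have h3 : ∀ c : ℝ, ex c 0 = 1 := fun c => by simp [ex]
  rw [h3, h3]
  linear_combination ((inc p i w : ℂ) * inc p j w' * Complex.I / 2) * h2

lemma hn2 (w w' : Links L) : hn 2 0 w w' = ((Rm w w' : ℝ) : ℂ) := by
  unfold hn Rm
  push_cast
  refine Finset.sum_congr rfl fun p _ => Finset.sum_congr rfl fun i _ =>
    Finset.sum_congr rfl fun j _ => ?_
  have h1 := c12sq (al L p.2.2) (ta p.2.1 p.2.2) i j
  have h2 : (c1 (al L p.2.2) (ta p.2.1 p.2.2) i j : ℂ) ^ 2 +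
      (c2 (al L p.2.2) (ta p.2.1 p.2.2) i j : ℂ) ^ 2 =
      -2 * rc (al L p.2.2) (ta p.2.1 p.2.2) i j := by exact_mod_cast h1
  have h3 : ∀ c : ℝ, ex c 0 = 1 := fun c => by simp [ex]
  rw [h3, h3, mul_pow, mul_pow, Complex.I_sq]
  linear_combination (-(inc p i w : ℂ) * inc p j w' / 2) * h2

/-- determinants of smooth matrices are smooth -/
lemma det_contDiff {n : Type} [Fintype n] [DecidableEq n] (h : ℝ → Matrix n n ℂ)
    (hh : ∀ i j, ContDiff ℝ 2 (fun x => h x i j)) : ContDiff ℝ 2 (fun x => det (h x)) := by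
  simp only [det_apply']
  refine ContDiff.sum fun σ _ => ContDiff.mul contDiff_const ?_
  exact contDiff_prod fun i _ => hh _ _

/-- **LNK** -/
theorem af_lnk : S_LD2 → S_LNK := by
  intro hLD L _ hL hP
  set H : Matrix (Dy L) (Dy L) ℝ := rs (Hm (L := L)) with hH
  set Q : Matrix (Dy L) (Dy L) ℝ := rs (Qm (L := L)) with hQ
  set R : Matrix (Dy L) (Dy L) ℝ := rs (Rm (L := L)) with hR
  have hdet : H.det ≠ 0 := hP.det_pos.ne'
  let f : ℝ →+* ℂ := Complex.ofRealHom
  have e0 : rs (hF (L := L) 0) = H.map f := by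
    ext w w'
    have := hn0 (L := L) w.1 w'.1
    rw [hn_zero] at this
    exact this
  have e1 : rs (hn (L := L) 1 0) = Complex.I • Q.map f := by
    ext w w'
    exact hn1 (L := L) w.1 w'.1
  have e2 : rs (hn (L := L) 2 0) = R.map f := by
    ext w w'
    exact hn2 (L := L) w.1 w'.1
  have hdet0 : det (rs (hF (L := L) 0)) ≠ 0 := by
    have h1 : det (H.map f) = f H.det := (RingHom.map_det f H).symm
    rw [e0, h1]
    exact (map_ne_zero f).2 hdet
  have hinv : (H.map f)⁻¹ = (H⁻¹).map f := by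
    apply Matrix.inv_eq_right_inv
    rw [← Matrix.map_mul, Matrix.mul_nonsing_inv H (isUnit_iff_ne_zero.2 hdet)]
    exact Matrix.map_one f (map_zero f) (map_one f)
  refine ⟨det_contDiff _ fun w w' => hn_contDiff w.1 w'.1, hdet0, ?_⟩
  have key := hLD.2.2 (fun x => rs (hF (L := L) x)) (fun x => rs (hn (L := L) 1 x))
    (rs (hn (L := L) 2 0)) (fun x w w' => by
      have h1 := hn_deriv (L := L) 0 x w.1 w'.1
      have h2 : (fun y => hn 0 y w.1 w'.1) = fun y => hF y w.1 w'.1 :=
        funext fun y => hn_zero y w.1 w'.1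
      rw [h2] at h1
      exact h1) (fun w w' => hn_deriv (L := L) 1 0 w.1 w'.1) hdet0
  rw [key, e0, e1, e2, hinv]
  have k1 : (H⁻¹).map f * R.map f = (H⁻¹ * R).map f := (Matrix.map_mul).symm
  have k2 : (H⁻¹).map f * (Complex.I • Q.map f) = Complex.I • (H⁻¹ * Q).map f := by
    rw [Matrix.mul_smul, ← Matrix.map_mul]
  have k3 : ∀ M : Matrix (Dy L) (Dy L) ℝ, trace (M.map f) = ((trace M : ℝ) : ℂ) := fun M => by
    unfold trace
    push_cast
    rfl
  rw [k1, k2, k3, Matrix.smul_mul, Matrix.mul_smul, ← Matrix.map_mul, trace_smul, trace_smul, k3,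
    smul_smul, Complex.I_mul_I]
  push_cast
  simp

end

end Pool.Agent.Y864.AF
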